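import Pool.Agent.Lib_helper96.RO.ModN
import Pool.Agent.Lib_helper15.RankOne.Defs2

set_option autoImplicit false

/-!
Module N: bounded Borel functional calculus of a normal operator.
-/

open MeasureTheory
open scoped InnerProductSpace ComplexConjugate

namespace Pool.Agent.RankOne.Spec

variable {H : Type*} [NormedAddCommGroup H] [InnerProductSpace ℂ H] [CompleteSpace H]
variable {N : H →L[ℂ] H} (hN : IsStarNormal N) (u v : H)

theorem BM.memLp' {b : spectrum ℂ N → ℂ} (hb : BM b) (μ : Measure (spectrum ℂ N))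
    [IsFiniteMeasure μ] : MemLp b 2 μ := by
  obtain ⟨C, hC⟩ := hb.2
  exact MemLp.of_bound hb.1.aestronglyMeasurable C (Filter.Eventually.of_forall hC)

theorem BM.mul {b b' : spectrum ℂ N → ℂ} (hb : BM b) (hb' : BM b') : BM (b * b') := by
  obtain ⟨C, hC⟩ := hb.2
  obtain ⟨D, hD⟩ := hb'.2
  refine ⟨hb.1.mul hb'.1, C * D, fun x => ?_⟩
  rw [Pi.mul_apply, norm_mul]
  exact mul_le_mul (hC x) (hD x) (norm_nonneg _) ((norm_nonneg _).trans (hC x))

theorem bm_cont (f : C(spectrum ℂ N, ℂ)) : BM (fun x => f x) :=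
  ⟨f.continuous.measurable, ‖f‖, fun x => f.norm_coe_le_norm x⟩

theorem BM.sub {b b' : spectrum ℂ N → ℂ} (hb : BM b) (hb' : BM b') : BM (b - b') := by
  obtain ⟨C, hC⟩ := hb.2
  obtain ⟨D, hD⟩ := hb'.2
  refine ⟨hb.1.sub hb'.1, C + D, fun x => ?_⟩
  exact (norm_sub_le _ _).trans (add_le_add (hC x) (hD x))

/-- simultaneous approximation for two vectors and a product -/
theorem approx2 {b : spectrum ℂ N → ℂ} (hb : BM b) (l : List H) {ε : ℝ} (hε : 0 < ε) :
    ∃ f : C(spectrum ℂ N, ℂ), ∀ w ∈ l, ‖V hN w (b - fun x => f x)‖ ≤ ε := by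
  set μ : Measure (spectrum ℂ N) := (l.map (fun w => mu hN w)).sum with hμ
  have key : ∀ l : List H, IsFiniteMeasure ((l.map (fun w => mu hN w)).sum) ∧
      ((l.map (fun w => mu hN w)).sum).WeaklyRegular ∧
      ∀ w ∈ l, mu hN w ≤ (l.map (fun w => mu hN w)).sum := by
    intro l
    induction l with
    | nil =>
      refine ⟨?_, ?_, by simp⟩
      · simp only [List.map_nil, List.sum_nil]; infer_instance
      · simp only [List.map_nil, List.sum_nil]; infer_instance
    | cons w l ih =>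
      obtain ⟨h1, h2, h3⟩ := ih
      have h4 : IsFiniteMeasure (((w :: l).map (fun w => mu hN w)).sum) := by
        rw [List.map_cons, List.sum_cons]; infer_instance
      refine ⟨h4, inferInstance, ?_⟩
      intro w' hw'
      rw [List.map_cons, List.sum_cons]
      rcases List.mem_cons.1 hw' with rfl | h
      · exact Measure.le_add_right le_rfl
      · exact Measure.le_add_left (h3 w' h)
  obtain ⟨k1, k2, k3⟩ := key l
  have hbμ : MemLp b 2 μ := BM.memLp' hb μ
  obtain ⟨f, hf, hfm⟩ := hbμ.exists_boundedContinuous_eLpNorm_sub_le (by norm_num)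
    (ε := ENNReal.ofReal ε) (by simpa using hε)
  refine ⟨⟨fun x => f x, f.continuous⟩, fun w hw => ?_⟩
  have hfw : MemLp (⇑f) 2 (mu hN w) := memLp_cont hN w ⟨fun x => f x, f.continuous⟩
  show ‖V hN w (b - ⇑f)‖ ≤ ε
  rw [norm_V hN w ((BM.memLp' hb _).sub hfw)]
  refine ENNReal.toReal_le_of_le_ofReal hε.le (le_trans ?_ hf)
  exact eLpNorm_mono_measure _ (k3 w hw)

theorem norm_V_le {b : spectrum ℂ N → ℂ} (hb : Measurable b) {M : ℝ} (hM0 : 0 ≤ M)
    (hM : ∀ x, ‖b x‖ ≤ M) : ‖V hN u b‖ ≤ M * ‖u‖ := by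
  have hbm : MemLp b 2 (mu hN u) := BM.memLp hN u ⟨hb, M, hM⟩
  have h1m : MemLp (1 : spectrum ℂ N → ℂ) 2 (mu hN u) := memLp_const 1
  have h2 : ‖u‖ = (eLpNorm (1 : spectrum ℂ N → ℂ) 2 (mu hN u)).toReal := by
    rw [← norm_V hN u h1m, V_one]
  rw [h2, norm_V hN u hbm]
  have h3 : eLpNorm b 2 (mu hN u) ≤ ENNReal.ofReal M * eLpNorm (1 : spectrum ℂ N → ℂ) 2 (mu hN u) := by
    refine eLpNorm_le_mul_eLpNorm_of_ae_le_mul (Filter.Eventually.of_forall fun x => ?_) 2
    simpa using hM x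
  have h4 := ENNReal.toReal_mono (ENNReal.mul_ne_top ENNReal.ofReal_ne_top h1m.eLpNorm_ne_top) h3
  rwa [ENNReal.toReal_mul, ENNReal.toReal_ofReal hM0] at h4

theorem V_add_vec {b : spectrum ℂ N → ℂ} (hb : BM b) :
    V hN (u + v) b = V hN u b + V hN v b := by
  rw [← sub_eq_zero, ← norm_le_zero_iff]
  refine le_of_forall_pos_le_add fun ε hε => ?_
  rw [zero_add]
  obtain ⟨f, hf⟩ := approx2 hN hb [u, v, u + v] (ε := ε / 3) (by positivity)
  have a1 := hf u (by simp)
  have a2 := hf v (by simp)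
  have a3 := hf (u + v) (by simp)
  rw [V_sub hN _ (BM.memLp hN _ hb) (memLp_cont hN _ f), V_cont] at a1 a2 a3
  have e : V hN (u + v) b - (V hN u b + V hN v b) =
      (V hN (u + v) b - fc hN f (u + v)) - (V hN u b - fc hN f u) - (V hN v b - fc hN f v) := by
    rw [map_add]; abel
  rw [e]
  refine (norm_sub_le _ _).trans ?_
  have := norm_sub_le (V hN (u + v) b - fc hN f (u + v)) (V hN u b - fc hN f u)
  linarith

theorem V_smul_vec (a : ℂ) {b : spectrum ℂ N → ℂ} (hb : BM b) :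
    V hN (a • u) b = a • V hN u b := by
  rw [← sub_eq_zero, ← norm_le_zero_iff]
  refine le_of_forall_pos_le_add fun ε hε => ?_
  rw [zero_add]
  obtain ⟨f, hf⟩ := approx2 hN hb [u, a • u] (ε := ε / (‖a‖ + 1)) (by positivity)
  have a1 := hf u (by simp)
  have a3 := hf (a • u) (by simp)
  rw [V_sub hN _ (BM.memLp hN _ hb) (memLp_cont hN _ f), V_cont] at a1 a3
  have e : V hN (a • u) b - a • V hN u b =
      (V hN (a • u) b - fc hN f (a • u)) - a • (V hN u b - fc hN f u) := by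
    rw [map_smul, smul_sub]; abel
  rw [e]
  refine (norm_sub_le _ _).trans ?_
  rw [norm_smul]
  have h1 : ‖a‖ * ‖V hN u b - fc hN f u‖ ≤ ‖a‖ * (ε / (‖a‖ + 1)) :=
    mul_le_mul_of_nonneg_left a1 (norm_nonneg _)
  calc _ ≤ ε / (‖a‖ + 1) + ‖a‖ * (ε / (‖a‖ + 1)) := add_le_add a3 h1
    _ = ε := by field_simp; ring

open Classical in
/-- the Borel functional calculus -/
noncomputable def Th (b : spectrum ℂ N → ℂ) : H →L[ℂ] H :=
  if hb : BM b then
    LinearMap.mkContinuous
      { toFun := fun u => V hN u b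
        map_add' := fun u v => V_add_vec hN u v hb
        map_smul' := fun a u => V_smul_vec hN u a hb } (max hb.2.choose 0)
      (fun u => norm_V_le hN u hb.1 (le_max_right _ _)
        (fun x => (hb.2.choose_spec x).trans (le_max_left _ _)))
  else 0

theorem Th_apply {b : spectrum ℂ N → ℂ} (hb : BM b) : Th hN b u = V hN u b := by
  rw [Th, dif_pos hb]
  rfl

theorem V_mul {b b' : spectrum ℂ N → ℂ} (hb : BM b) (hb' : BM b') :
    V hN (V hN u b') b = V hN u (b * b') := by
  rw [← sub_eq_zero, ← norm_le_zero_iff]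
  refine le_of_forall_pos_le_add fun ε hε => ?_
  rw [zero_add]
  obtain ⟨D, hD⟩ := hb'.2
  set D' := max D 0 with hD'
  have hD'0 : 0 ≤ D' := le_max_right _ _
  have hDD : ∀ x, ‖b' x‖ ≤ D' := fun x => (hD x).trans (le_max_left _ _)
  obtain ⟨f, hf⟩ := approx2 hN hb [u, V hN u b'] (ε := ε / (D' + 1)) (by positivity)
  have a1 := hf u (by simp)
  have a2 := hf (V hN u b') (by simp)
  have hfm := bm_cont f
  rw [V_sub hN (V hN u b') (BM.memLp hN _ hb) (memLp_cont hN _ f), V_cont,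
    fc_V hN u f (BM.memLp hN u hb')] at a2
  have a3 : ‖V hN u (b * b') - V hN u (fun x => f x * b' x)‖ ≤ D' * (ε / (D' + 1)) := by
    have e0 : (fun x => f x * b' x) = (fun x => f x) * b' := rfl
    rw [e0, ← V_sub hN u (BM.memLp hN u (BM.mul hb hb')) (BM.memLp hN u (BM.mul hfm hb'))]
    have e1 : b * b' - (fun x => f x) * b' = (b - fun x => f x) * b' := by ring
    rw [e1]
    have hm1 : MemLp ((b - fun x => f x) * b') 2 (mu hN u) :=
      BM.memLp hN u (BM.mul (BM.sub hb hfm) hb')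
    have hm2 : MemLp (b - fun x => f x) 2 (mu hN u) := BM.memLp hN u (BM.sub hb hfm)
    rw [norm_V hN u hm1]
    rw [norm_V hN u hm2] at a1
    have h3 : eLpNorm ((b - fun x => f x) * b') 2 (mu hN u) ≤
        ENNReal.ofReal D' * eLpNorm (b - fun x => f x) 2 (mu hN u) := by
      refine eLpNorm_le_mul_eLpNorm_of_ae_le_mul (Filter.Eventually.of_forall fun x => ?_) 2
      rw [Pi.mul_apply, norm_mul, mul_comm]
      exact mul_le_mul_of_nonneg_right (hDD x) (norm_nonneg _)
    have h4 := ENNReal.toReal_mono (ENNReal.mul_ne_top ENNReal.ofReal_ne_top hm2.eLpNorm_ne_top) h3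
    rw [ENNReal.toReal_mul, ENNReal.toReal_ofReal hD'0] at h4
    exact h4.trans (mul_le_mul_of_nonneg_left a1 hD'0)
  have e : V hN (V hN u b') b - V hN u (b * b') =
      (V hN (V hN u b') b - V hN u (fun x => f x * b' x)) -
        (V hN u (b * b') - V hN u (fun x => f x * b' x)) := by abel
  rw [e]
  refine (norm_sub_le _ _).trans ?_
  calc _ ≤ ε / (D' + 1) + D' * (ε / (D' + 1)) := add_le_add a2 a3
    _ = ε := by field_simp; ring

theorem bm_one : BM (1 : spectrum ℂ N → ℂ) := ⟨measurable_one, 1, fun x => by simp⟩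

theorem calculus : Calculus (Th hN) where
  one := by
    ext u
    rw [Th_apply hN u bm_one, V_one]
    rfl
  add b₁ b₂ h₁ h₂ := by
    ext u
    have h : BM (b₁ + b₂) := by
      obtain ⟨C, hC⟩ := h₁.2
      obtain ⟨D, hD⟩ := h₂.2
      exact ⟨h₁.1.add h₂.1, C + D, fun x => (norm_add_le _ _).trans (add_le_add (hC x) (hD x))⟩
    rw [add_apply, Th_apply hN u h, Th_apply hN u h₁, Th_apply hN u h₂,
      V_add hN u (BM.memLp hN u h₁) (BM.memLp hN u h₂)]
  smul a b hb := by
    ext u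
    have h : BM (a • b) := by
      obtain ⟨C, hC⟩ := hb.2
      refine ⟨hb.1.const_smul a, ‖a‖ * C, fun x => ?_⟩
      rw [Pi.smul_apply, norm_smul]
      exact mul_le_mul_of_nonneg_left (hC x) (norm_nonneg _)
    rw [smul_apply, Th_apply hN u h, Th_apply hN u hb, V_smul hN u a (BM.memLp hN u hb)]
  mul b₁ b₂ h₁ h₂ := by
    ext u
    rw [mul_apply_eq_comp, Th_apply hN u (BM.mul h₁ h₂), Th_apply hN u h₂,
      Th_apply hN _ h₁, V_mul hN u h₁ h₂]
  bdd := by
    by_cases hE : Nonempty (spectrum ℂ N)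
    · refine ⟨1, fun b hb M hM => ?_⟩
      obtain ⟨x0⟩ := hE
      have hM0 : 0 ≤ M := (norm_nonneg _).trans (hM x0)
      rw [one_mul]
      refine ContinuousLinearMap.opNorm_le_bound _ hM0 fun u => ?_
      rw [Th_apply hN u ⟨hb, M, hM⟩]
      exact norm_V_le hN u hb hM0 hM
    · refine ⟨0, fun b hb M hM => ?_⟩
      rw [zero_mul]
      refine ContinuousLinearMap.opNorm_le_bound _ le_rfl fun u => ?_
      have hb' : ∀ x, ‖b x‖ ≤ 0 := fun x => absurd ⟨x⟩ hE
      rw [Th_apply hN u ⟨hb, M, hM⟩]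
      exact norm_V_le hN u hb le_rfl hb'
  meas x ℓ := by
    set v := (InnerProductSpace.toDual ℂ H).symm ℓ with hv
    refine ⟨mm hN x v, cfac hN x v, finite_mm hN x v, measurable_cfac hN x v, norm_cfac hN x v,
      fun b hb => ?_⟩
    rw [integral_mm, ← inner_V hN x v (BM.memLp hN x hb), Th_apply hN x hb, hv,
      InnerProductSpace.toDual_symm_apply]

theorem Th_val : Th hN (fun z : spectrum ℂ N => (z : ℂ)) = N := by
  ext u
  rw [Th_apply hN u bm_val]
  have h := V_apply_N hN u (BM.memLp hN u (bm_one (N := N)))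
  rw [V_one] at h
  rw [h]
  congr 1
  funext x
  simp

end Pool.Agent.RankOne.Spec

namespace Pool.Agent.RankOne

/-- Module N. -/
theorem N.{u} : N_Stmt.{u} := by
  intro H _ _ _ N hN
  exact ⟨Spec.Th hN, Spec.calculus hN, Spec.Th_val hN⟩

end Pool.Agent.RankOne
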