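import Pool.Agent.Lib_helper96.RO.Spec
import Pool.Agent.Lib_helper15.RankOne.Defs

set_option autoImplicit false

/-!
Module N: the model of a rank one perturbation of a normal operator.
-/

open MeasureTheory
open scoped InnerProductSpace ComplexConjugate

namespace Pool.Agent.RankOne.Spec

variable {H : Type*} [NormedAddCommGroup H] [InnerProductSpace ℂ H] [CompleteSpace H]
variable {N : H →L[ℂ] H} (hN : IsStarNormal N) (u v : H)

theorem BM.memLp {b : spectrum ℂ N → ℂ} (hb : BM b) : MemLp b 2 (mu hN u) := by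
  obtain ⟨C, hC⟩ := hb.2
  exact MemLp.of_bound hb.1.aestronglyMeasurable C (Filter.Eventually.of_forall hC)

theorem measurable_dens : Measurable (dens hN u v : spectrum ℂ N → ℂ) :=
  (Lp.stronglyMeasurable _).measurable

theorem integrable_dens : Integrable (dens hN u v : spectrum ℂ N → ℂ) (mu hN u) :=
  (Lp.memLp (dens hN u v)).integrable (by norm_num)

/-- the unimodular factor -/
noncomputable def cfac (x : spectrum ℂ N) : ℂ :=
  if dens hN u v x = 0 then 1 else conj (dens hN u v x) / ‖dens hN u v x‖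

theorem measurable_cfac : Measurable (cfac hN u v) := by
  have h := measurable_dens hN u v
  refine Measurable.ite (measurableSet_eq_fun h measurable_const) measurable_const ?_
  exact (Complex.continuous_conj.measurable.comp h).div
    (Complex.measurable_ofReal.comp h.norm)

theorem norm_cfac (x : spectrum ℂ N) : ‖cfac hN u v x‖ = 1 := by
  unfold cfac
  split_ifs with h
  · simp
  · rw [norm_div, Complex.norm_real, norm_norm, RCLike.norm_conj]
    exact div_self (norm_ne_zero_iff.2 h)

theorem norm_mul_cfac (x : spectrum ℂ N) :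
    (‖dens hN u v x‖ : ℂ) * cfac hN u v x = conj (dens hN u v x) := by
  unfold cfac
  split_ifs with h
  · simp [h]
  · rw [mul_div_cancel₀]
    exact_mod_cast norm_ne_zero_iff.2 h

/-- the measure of the model -/
noncomputable def mm : Measure (spectrum ℂ N) :=
  (mu hN u).withDensity (fun x => ENNReal.ofReal ‖dens hN u v x‖)

theorem finite_mm : IsFiniteMeasure (mm hN u v) := by
  refine isFiniteMeasure_withDensity ?_
  have := (integrable_dens hN u v).norm
  have h2 := ofReal_integral_eq_lintegral_ofReal this (Filter.Eventually.of_forall fun x => norm_nonneg _)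
  rw [← h2]
  exact ENNReal.ofReal_ne_top

theorem integral_mm {b : spectrum ℂ N → ℂ} :
    ∫ x, b x * cfac hN u v x ∂(mm hN u v) =
      ∫ x, conj (dens hN u v x) * b x ∂(mu hN u) := by
  unfold mm
  rw [integral_withDensity_eq_integral_toReal_smul
    (measurable_dens hN u v).norm.ennreal_ofReal
    (Filter.Eventually.of_forall fun x => ENNReal.ofReal_lt_top)]
  congr 1
  funext x
  rw [ENNReal.toReal_ofReal (norm_nonneg _), ← norm_mul_cfac hN u v x, Complex.real_smul]
  ring

theorem bm_val : BM (fun x : spectrum ℂ N => (x : ℂ)) := by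
  refine ⟨measurable_subtype_coe, ?_⟩
  obtain ⟨C, hC⟩ := (spectrum.isCompact N (𝕜 := ℂ)).isBounded.exists_norm_le
  exact ⟨C, fun x => hC _ x.2⟩

theorem data : Data (mm hN u v) (cfac hN u v) (fun x => (x : ℂ)) :=
  ⟨finite_mm hN u v, measurable_cfac hN u v, norm_cfac hN u v, bm_val⟩

theorem BM.mul_val {b : spectrum ℂ N → ℂ} (hb : BM b) :
    BM (fun x : spectrum ℂ N => (x : ℂ) * b x) := by
  obtain ⟨C, hC⟩ := (bm_val (N := N)).2
  obtain ⟨D, hD⟩ := hb.2
  refine ⟨measurable_subtype_coe.mul hb.1, C * D, fun x => ?_⟩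
  rw [norm_mul]
  exact mul_le_mul (hC x) (hD x) (norm_nonneg _) ((norm_nonneg _).trans (hC x))

theorem model (T : H →L[ℂ] H) (hT : ∀ x, T x = N x + ⟪v, x⟫_ℂ • u) :
    Model (mm hN u v) (cfac hN u v) (fun x : spectrum ℂ N => (x : ℂ)) T (V hN u) where
  add b₁ b₂ h₁ h₂ := V_add hN u (BM.memLp hN u h₁) (BM.memLp hN u h₂)
  smul a b hb := V_smul hN u a (BM.memLp hN u hb)
  bdd := by
    refine ⟨((mu hN u Set.univ) ^ ((2 : ENNReal).toReal⁻¹)).toReal, ?_⟩
    intro b hb M hM
    have hbm : MemLp b 2 (mu hN u) := BM.memLp hN u ⟨hb, M, hM⟩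
    rw [norm_V hN u hbm]
    have h1 := eLpNorm_le_of_ae_bound (p := 2) (μ := mu hN u) (f := b) (C := M)
      (Filter.Eventually.of_forall hM)
    rcases le_or_gt 0 M with h0 | h0
    · have h2 := ENNReal.toReal_mono (ENNReal.mul_ne_top
        (ENNReal.rpow_ne_top_of_nonneg (by positivity) (measure_ne_top _ _))
        ENNReal.ofReal_ne_top) h1
      rwa [ENNReal.toReal_mul, ENNReal.toReal_ofReal h0] at h2
    · have hemp : IsEmpty (spectrum ℂ N) :=
        ⟨fun x => absurd ((norm_nonneg _).trans (hM x)) (not_le.2 h0)⟩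
      have hz : mu hN u Set.univ = 0 := by
        rw [Set.univ_eq_empty_iff.2 hemp, measure_empty]
      have hz2 : mu hN u = 0 := Measure.measure_univ_eq_zero.1 hz
      rw [hz2]
      simp
  inter b hb := by
    have hbm := BM.memLp hN u hb
    rw [hT, V_apply_N hN u hbm, inner_V hN u v hbm, integral_mm, V_one]
    rfl
  inj b hb h := by
    have h1 := (V_zero_iff hN u (BM.memLp hN u hb)).1 h
    exact (withDensity_absolutelyContinuous (mu hN u) _).ae_eq h1

end Pool.Agent.RankOne.Spec
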