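import Mathlib

set_option autoImplicit false

/-!
Cyclic spectral theorem for a normal operator: for a vector `u` the map `f ↦ f(N) u` extends to an
isometry from `L²(μ)`, where `μ` is a finite measure on the spectrum.
-/

open MeasureTheory
open scoped InnerProductSpace ComplexConjugate CompactlySupported

namespace Pool.Agent.RankOne.Spec

variable {H : Type*} [NormedAddCommGroup H] [InnerProductSpace ℂ H] [CompleteSpace H]

/-- continuous functional calculus -/
noncomputable abbrev fc {N : H →L[ℂ] H} (hN : IsStarNormal N) :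
    C(spectrum ℂ N, ℂ) →⋆ₐ[ℂ] (H →L[ℂ] H) := cfcHom hN

/-- complexification of a real continuous function -/
def cx {X : Type*} [TopologicalSpace X] (g : C(X, ℝ)) : C(X, ℂ) :=
  ⟨fun x => (g x : ℂ), by fun_prop⟩

section
variable {X : Type*} [TopologicalSpace X]

@[simp] theorem cx_apply (g : C(X, ℝ)) (x : X) : cx g x = (g x : ℂ) := rfl

theorem cx_add (g h : C(X, ℝ)) : cx (g + h) = cx g + cx h := by ext x; simp
theorem cx_smul (r : ℝ) (g : C(X, ℝ)) : cx (r • g) = (r : ℂ) • cx g := by ext x; simp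
theorem star_cx (g : C(X, ℝ)) : star (cx g) = cx g := by ext x; simp

end

variable {N : H →L[ℂ] H} (hN : IsStarNormal N) (u : H)

theorem inner_fc (f g : C(spectrum ℂ N, ℂ)) :
    ⟪fc hN f u, fc hN g u⟫_ℂ = ⟪u, fc hN (star f * g) u⟫_ℂ := by
  rw [map_mul, map_star, ContinuousLinearMap.star_eq_adjoint, mul_apply_eq_comp,
    ContinuousLinearMap.adjoint_inner_right]

/-- the positive functional -/
noncomputable def Lam : C_c(spectrum ℂ N, ℝ) →ₚ[ℝ] ℝ :=
  PositiveLinearMap.mk₀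
    { toFun := fun g => (⟪u, fc hN (cx (g : C(spectrum ℂ N, ℝ))) u⟫_ℂ).re
      map_add' := fun g h => by
        have : cx ((g + h : C_c(spectrum ℂ N, ℝ)) : C(spectrum ℂ N, ℝ)) =
          cx (g : C(spectrum ℂ N, ℝ)) + cx (h : C(spectrum ℂ N, ℝ)) := by ext x; simp
        rw [this, map_add, add_apply, inner_add_right, Complex.add_re]
      map_smul' := fun r g => by
        have : cx ((r • g : C_c(spectrum ℂ N, ℝ)) : C(spectrum ℂ N, ℝ)) =
          (r : ℂ) • cx (g : C(spectrum ℂ N, ℝ)) := by ext x; simp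
        rw [this, map_smul, smul_apply, inner_smul_right]
        simp }
    (by
      intro g hg
      have h1 : cx (g : C(spectrum ℂ N, ℝ)) =
          star (cx ⟨fun x => Real.sqrt (g x), by fun_prop⟩) *
            cx ⟨fun x => Real.sqrt (g x), by fun_prop⟩ := by
        ext x
        have hx : 0 ≤ g x := hg x
        rw [star_cx]
        simp only [cx_apply, ContinuousMap.mul_apply, ContinuousMap.coe_mk]
        rw [← Complex.ofReal_mul, Real.mul_self_sqrt hx]
      show 0 ≤ (⟪u, fc hN (cx (g : C(spectrum ℂ N, ℝ))) u⟫_ℂ).re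
      rw [h1, ← inner_fc]
      exact inner_self_nonneg (𝕜 := ℂ))

/-- the spectral measure of `u` -/
noncomputable def mu : Measure (spectrum ℂ N) := RealRMK.rieszMeasure (Lam hN u)

instance : IsFiniteMeasure (mu hN u) := by
  unfold mu
  infer_instance

instance : (mu hN u).Regular := by
  unfold mu
  infer_instance

theorem inner_real (g : C(spectrum ℂ N, ℝ)) :
    ⟪u, fc hN (cx g) u⟫_ℂ = ((∫ x, g x ∂(mu hN u) : ℝ) : ℂ) := by
  have h1 : (⟪u, fc hN (cx g) u⟫_ℂ).re = ∫ x, g x ∂(mu hN u) := by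
    have := RealRMK.integral_rieszMeasure (Lam hN u)
      (CompactlySupportedContinuousMap.continuousMapEquiv g)
    exact this.symm
  have h2 : (⟪u, fc hN (cx g) u⟫_ℂ).im = 0 := by
    have h3 : IsSelfAdjoint (fc hN (cx g)) := by
      rw [IsSelfAdjoint, ← map_star, star_cx]
    have h4 := h3.isSymmetric u u
    have h5 := inner_conj_symm (𝕜 := ℂ) u (fc hN (cx g) u)
    rw [← Complex.conj_eq_iff_im, inner_conj_symm]
    exact h4
  apply Complex.ext
  · rw [h1, Complex.ofReal_re]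
  · rw [h2, Complex.ofReal_im]

theorem inner_gen (f : C(spectrum ℂ N, ℂ)) :
    ⟪u, fc hN f u⟫_ℂ = ∫ x, f x ∂(mu hN u) := by
  set a : C(spectrum ℂ N, ℝ) := ⟨fun x => (f x).re, by fun_prop⟩ with ha
  set b : C(spectrum ℂ N, ℝ) := ⟨fun x => (f x).im, by fun_prop⟩ with hb
  have hf : f = cx a + Complex.I • cx b := by
    ext x
    simp only [ContinuousMap.add_apply, cx_apply, ContinuousMap.smul_apply, smul_eq_mul, ha, hb,
      ContinuousMap.coe_mk]
    rw [mul_comm, Complex.re_add_im]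
  have hfi : Integrable (fun x => f x) (mu hN u) := f.continuous.integrable_of_hasCompactSupport
    (HasCompactSupport.of_compactSpace _)
  rw [hf, map_add, add_apply, inner_add_right, map_smul, smul_apply, inner_smul_right,
    inner_real, inner_real, ← hf, ← integral_re_add_im hfi]
  simp only [ha, hb, ContinuousMap.coe_mk]
  rw [mul_comm Complex.I]
  rfl

theorem inner_fc_fc (f g : C(spectrum ℂ N, ℂ)) :
    ⟪fc hN f u, fc hN g u⟫_ℂ = ∫ x, g x * conj (f x) ∂(mu hN u) := by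
  rw [inner_fc, inner_gen]
  congr 1
  funext x
  rw [ContinuousMap.mul_apply, mul_comm]
  rfl

/-- the evaluation map -/
noncomputable def ev : C(spectrum ℂ N, ℂ) →ₗ[ℂ] H where
  toFun f := fc hN f u
  map_add' f g := by rw [map_add, add_apply]
  map_smul' r f := by rw [map_smul, smul_apply]; rfl

/-- the embedding of continuous functions into `L²` -/
noncomputable def toL : C(spectrum ℂ N, ℂ) →ₗ[ℂ] Lp ℂ 2 (mu hN u) :=
  (ContinuousMap.toLp 2 (mu hN u) ℂ : C(spectrum ℂ N, ℂ) →L[ℂ] Lp ℂ 2 (mu hN u)).toLinearMap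

theorem toL_dense : DenseRange (toL hN u) :=
  ContinuousMap.toLp_denseRange ℂ (mu hN u) ℂ (by norm_num)

theorem norm_ev (f : C(spectrum ℂ N, ℂ)) : ‖ev hN u f‖ = ‖toL hN u f‖ := by
  have h1 : ⟪ev hN u f, ev hN u f⟫_ℂ = ⟪toL hN u f, toL hN u f⟫_ℂ := by
    show ⟪fc hN f u, fc hN f u⟫_ℂ = ⟪ContinuousMap.toLp 2 (mu hN u) ℂ f,
      ContinuousMap.toLp 2 (mu hN u) ℂ f⟫_ℂ
    rw [inner_fc_fc, ContinuousMap.inner_toLp]
  have h2 : ‖ev hN u f‖ ^ 2 = ‖toL hN u f‖ ^ 2 := by
    have e1 := inner_self_eq_norm_sq_to_K (𝕜 := ℂ) (ev hN u f)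
    have e2 := inner_self_eq_norm_sq_to_K (𝕜 := ℂ) (toL hN u f)
    rw [h1, e2] at e1
    have e3 : ((‖toL hN u f‖ ^ 2 : ℝ) : ℂ) = ((‖ev hN u f‖ ^ 2 : ℝ) : ℂ) := by
      push_cast
      exact e1
    exact (Complex.ofReal_injective e3).symm
  exact (pow_left_inj₀ (norm_nonneg _) (norm_nonneg _) two_ne_zero).1 h2

/-- the isometry of the cyclic spectral theorem -/
noncomputable def U : Lp ℂ 2 (mu hN u) →L[ℂ] H := (ev hN u).extendOfNorm (toL hN u)

theorem U_toL (f : C(spectrum ℂ N, ℂ)) : U hN u (toL hN u f) = fc hN f u :=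
  LinearMap.extendOfNorm_eq (toL_dense hN u) ⟨1, fun f => by rw [norm_ev, one_mul]⟩ f

theorem norm_U (g : Lp ℂ 2 (mu hN u)) : ‖U hN u g‖ = ‖g‖ := by
  have h_mem : ∀ g ∈ Set.range (toL hN u), ‖U hN u g‖ = ‖g‖ := by
    rintro _ ⟨f, rfl⟩
    rw [U_toL]
    exact norm_ev hN u f
  exact (toL_dense hN u).induction h_mem (isClosed_eq (by fun_prop) (by fun_prop)) g

open Classical in
/-- `b ↦ b(N) u` on square integrable functions -/
noncomputable def V (b : spectrum ℂ N → ℂ) : H :=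
  if hb : MemLp b 2 (mu hN u) then U hN u (hb.toLp b) else 0

theorem V_eq {b : spectrum ℂ N → ℂ} (hb : MemLp b 2 (mu hN u)) :
    V hN u b = U hN u (hb.toLp b) := by rw [V, dif_pos hb]

theorem memLp_cont (f : C(spectrum ℂ N, ℂ)) : MemLp (fun x => f x) 2 (mu hN u) :=
  f.continuous.memLp_of_hasCompactSupport (HasCompactSupport.of_compactSpace _)

theorem V_cont (f : C(spectrum ℂ N, ℂ)) : V hN u (fun x => f x) = fc hN f u := by
  rw [V_eq hN u (memLp_cont hN u f), ← U_toL]
  congr 1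

theorem V_add {b b' : spectrum ℂ N → ℂ} (hb : MemLp b 2 (mu hN u)) (hb' : MemLp b' 2 (mu hN u)) :
    V hN u (b + b') = V hN u b + V hN u b' := by
  rw [V_eq hN u hb, V_eq hN u hb', V_eq hN u (hb.add hb'), ← map_add, MemLp.toLp_add]

theorem V_smul (a : ℂ) {b : spectrum ℂ N → ℂ} (hb : MemLp b 2 (mu hN u)) :
    V hN u (a • b) = a • V hN u b := by
  rw [V_eq hN u hb, V_eq hN u (hb.const_smul a), ← map_smul, MemLp.toLp_const_smul]

theorem norm_V {b : spectrum ℂ N → ℂ} (hb : MemLp b 2 (mu hN u)) :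
    ‖V hN u b‖ = (eLpNorm b 2 (mu hN u)).toReal := by
  rw [V_eq hN u hb, norm_U, Lp.norm_toLp]

theorem V_sub {b b' : spectrum ℂ N → ℂ} (hb : MemLp b 2 (mu hN u)) (hb' : MemLp b' 2 (mu hN u)) :
    V hN u (b - b') = V hN u b - V hN u b' := by
  rw [V_eq hN u hb, V_eq hN u hb', V_eq hN u (hb.sub hb'), ← map_sub, MemLp.toLp_sub]

theorem exists_approx {b : spectrum ℂ N → ℂ} (hb : MemLp b 2 (mu hN u)) {ε : ℝ} (hε : 0 < ε) :
    ∃ f : C(spectrum ℂ N, ℂ), ‖V hN u (b - fun x => f x)‖ ≤ ε := by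
  obtain ⟨f, hf, hfm⟩ := hb.exists_boundedContinuous_eLpNorm_sub_le (by norm_num)
    (ε := ENNReal.ofReal ε) (by simpa using hε)
  refine ⟨⟨fun x => f x, f.continuous⟩, ?_⟩
  show ‖V hN u (b - ⇑f)‖ ≤ ε
  rw [norm_V hN u (hb.sub hfm)]
  exact ENNReal.toReal_le_of_le_ofReal hε.le hf

theorem fc_V (g : C(spectrum ℂ N, ℂ)) {b : spectrum ℂ N → ℂ} (hb : MemLp b 2 (mu hN u)) :
    fc hN g (V hN u b) = V hN u (fun x => g x * b x) := by
  have hgb : ∀ {b : spectrum ℂ N → ℂ}, MemLp b 2 (mu hN u) →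
      MemLp (fun x => g x * b x) 2 (mu hN u) := by
    intro b hb
    refine hb.of_le_mul (c := ‖g‖) (g.continuous.aestronglyMeasurable.mul hb.1)
      (Filter.Eventually.of_forall fun x => ?_)
    rw [norm_mul]
    exact mul_le_mul_of_nonneg_right (g.norm_coe_le_norm x) (norm_nonneg _)
  have hgn : ∀ {b : spectrum ℂ N → ℂ}, MemLp b 2 (mu hN u) →
      ‖V hN u (fun x => g x * b x)‖ ≤ ‖g‖ * ‖V hN u b‖ := by
    intro b hb
    rw [norm_V hN u hb, norm_V hN u (hgb hb)]
    have h1 : eLpNorm (fun x => g x * b x) 2 (mu hN u) ≤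
        ENNReal.ofReal ‖g‖ * eLpNorm b 2 (mu hN u) := by
      refine eLpNorm_le_mul_eLpNorm_of_ae_le_mul (Filter.Eventually.of_forall fun x => ?_) 2
      rw [norm_mul]
      exact mul_le_mul_of_nonneg_right (g.norm_coe_le_norm x) (norm_nonneg _)
    have h2 := ENNReal.toReal_mono (ENNReal.mul_ne_top ENNReal.ofReal_ne_top hb.eLpNorm_ne_top) h1
    rwa [ENNReal.toReal_mul, ENNReal.toReal_ofReal (norm_nonneg _)] at h2
  rw [← sub_eq_zero, ← norm_le_zero_iff]
  refine le_of_forall_pos_le_add fun ε hε => ?_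
  rw [zero_add]
  set K : ℝ := ‖fc hN g‖ + ‖g‖ + 1 with hK
  have hK0 : 0 < K := by positivity
  obtain ⟨f, hf⟩ := exists_approx hN u hb (ε := ε / K) (by positivity)
  have hfm := memLp_cont hN u f
  have e1 : fc hN g (V hN u b) - V hN u (fun x => g x * b x) =
      fc hN g (V hN u (b - fun x => f x)) - V hN u (fun x => g x * (b - fun x => f x) x) := by
    have h1 : V hN u (fun x => g x * f x) = fc hN g (V hN u fun x => f x) := by
      rw [V_cont]
      have := V_cont hN u (g * f)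
      rw [map_mul, mul_apply_eq_comp] at this
      exact this
    have h2 : (fun x => g x * (b - fun x => f x) x) = (fun x => g x * b x) - fun x => g x * f x := by
      funext x
      simp only [Pi.sub_apply]
      ring
    rw [h2, V_sub hN u (hgb hb) (hgb hfm), h1, V_sub hN u hb hfm, map_sub]
    abel
  rw [e1]
  refine (norm_sub_le _ _).trans ?_
  have h3 := (fc hN g).le_opNorm (V hN u (b - fun x => f x))
  have h4 := hgn (hb.sub hfm)
  have h5 := norm_nonneg (V hN u (b - fun x => f x))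
  have h6 : ‖fc hN g (V hN u (b - fun x => f x))‖ +
      ‖V hN u (fun x => g x * (b - fun x => f x) x)‖ ≤ K * ‖V hN u (b - fun x => f x)‖ := by
    rw [hK]
    nlinarith
  refine h6.trans ?_
  calc K * ‖V hN u (b - fun x => f x)‖ ≤ K * (ε / K) := mul_le_mul_of_nonneg_left hf hK0.le
    _ = ε := by field_simp

theorem V_apply_N {b : spectrum ℂ N → ℂ} (hb : MemLp b 2 (mu hN u)) :
    N (V hN u b) = V hN u (fun x => (x : ℂ) * b x) := by
  have h := fc_V hN u ((ContinuousMap.id ℂ).restrict (spectrum ℂ N)) hb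
  rw [cfcHom_id hN] at h
  exact h

theorem V_apply_adj {b : spectrum ℂ N → ℂ} (hb : MemLp b 2 (mu hN u)) :
    star N (V hN u b) = V hN u (fun x => conj (x : ℂ) * b x) := by
  have h := fc_V hN u (star ((ContinuousMap.id ℂ).restrict (spectrum ℂ N))) hb
  rw [map_star, cfcHom_id hN] at h
  exact h

theorem V_one : V hN u 1 = u := by
  have h := V_cont hN u 1
  rw [map_one] at h
  exact h

theorem V_zero_iff {b : spectrum ℂ N → ℂ} (hb : MemLp b 2 (mu hN u)) :
    V hN u b = 0 ↔ b =ᵐ[mu hN u] 0 := by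
  rw [← norm_eq_zero, norm_V hN u hb, ENNReal.toReal_eq_zero_iff, or_iff_left hb.eLpNorm_ne_top,
    eLpNorm_eq_zero_iff hb.1 (by norm_num)]

/-- the density of `v` -/
noncomputable def dens (v : H) : Lp ℂ 2 (mu hN u) := ContinuousLinearMap.adjoint (U hN u) v

theorem inner_V (v : H) {b : spectrum ℂ N → ℂ} (hb : MemLp b 2 (mu hN u)) :
    ⟪v, V hN u b⟫_ℂ = ∫ x, conj (dens hN u v x) * b x ∂(mu hN u) := by
  rw [V_eq hN u hb, ← ContinuousLinearMap.adjoint_inner_left, L2.inner_def]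
  apply integral_congr_ae
  filter_upwards [hb.coeFn_toLp] with x hx
  rw [hx]
  show b x * conj _ = _
  rw [mul_comm]
  rfl

end Pool.Agent.RankOne.Spec
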